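import Pool.Agent.Lib.MP_defcf3_al.BRP.H88.Tri

/-! The heart for [F(ζ):F] = 6 (and 4), for every odd prime ℓ. -/

set_option linter.unusedSectionVars false

namespace BRP.H88

universe u

open BR7 BR7.H50 BRP.H50

variable {ℓ : ℕ} [Fact ℓ.Prime] [Fact (Odd ℓ)]

theorem eq_zero_of_nsmul_eq {n : ℕ} {Q : Type u} [AddCommGroup Q] {x : Q} (h1 : n • x = x) (h2 : ℓ • x = 0)
    (h3 : (n : ZMod ℓ) ≠ 1) : x = 0 := by
  rcases Nat.eq_zero_or_pos n with h0 | h0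
  · rw [h0, zero_nsmul] at h1
    exact h1.symm
  · have h4 : (n - 1) • x = 0 := by
      have h5 : n = (n - 1) + 1 := by omega
      rw [h5, add_nsmul, one_nsmul] at h1
      exact left_eq_add.1 (by rw [add_comm]; exact h1.symm)
    refine eq_zero_of_coprime (n := n - 1) ?_ h4 h2
    refine Nat.Coprime.symm ((Nat.Prime.coprime_iff_not_dvd Fact.out).2 fun h => h3 ?_)
    have h5 : ((n - 1 : ℕ) : ZMod ℓ) = 0 := (ZMod.natCast_eq_zero_iff _ _).2 h
    have h6 : n = (n - 1) + 1 := by omega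
    rw [h6]
    push_cast
    rw [h5, zero_add]

section

variable {F Ω : Type u} [Field F] [Field Ω] [Algebra F Ω] {ζ : Ωˣ} {γ : Ω ≃ₐ[F] Ω} {k d : ℕ}
  {Q : Type u} [AddCommGroup Q] {sym : Ωˣ → Ωˣ → Q} {Γ : AddMonoid.End Q}

theorem fixF (hS : SymAx ℓ F ζ γ k d sym Γ) {x : Ω} (h1 : ∀ g : Ω ≃ₐ[F] Ω, g • ζ = ζ → g x = x)
    (h2 : γ x = x) (g : Ω ≃ₐ[F] Ω) : g x = x := by
  by_cases hx : x = 0
  · rw [hx, map_zero]
  · have h3 : InL F ζ (Units.mk0 x hx) := fun g hg => Units.ext (h1 g hg)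
    have h4 := InF_of_gamma hS h3 (Units.ext h2)
    exact congrArg Units.val (h4 g)

/-- The images of elements of L under γ lie in L. -/
theorem fixL (hS : SymAx ℓ F ζ γ k d sym Γ) {x : Ω} (h1 : ∀ g : Ω ≃ₐ[F] Ω, g • ζ = ζ → g x = x) :
    ∀ g : Ω ≃ₐ[F] Ω, g • ζ = ζ → g (γ x) = γ x := by
  by_cases hx : x = 0
  · intro g _
    rw [hx, map_zero, map_zero]
  · have h3 : InL F ζ (Units.mk0 x hx) := fun g hg => Units.ext (h1 g hg)
    intro g hg
    exact congrArg Units.val (InL_gamma hS h3 g hg)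

theorem dec2 (hS : SymAx ℓ F ζ γ k d sym Γ) (e : Ω) (he : e ∈ fixE F ζ (γ ^ 2)) :
    (∀ g : Ω ≃ₐ[F] Ω, g e = e) ∨ ∀ c ∈ fixE F ζ (γ ^ 2), ∃ c0 c1 : Ω, (∀ g : Ω ≃ₐ[F] Ω, g c0 = c0) ∧
      (∀ g : Ω ≃ₐ[F] Ω, g c1 = c1) ∧ c = c0 + c1 * e := by
  have h2 : ∀ x : Ω, x ∈ fixE F ζ (γ ^ 2) → γ (γ x) = x := by
    intro x hx
    have := hx.2
    rwa [pow_two] at this
  by_cases he1 : γ e = e
  · exact Or.inl (fixF hS he.1 he1)
  · refine Or.inr fun c hc => ?_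
    have hne : e - γ e ≠ 0 := fun h => he1 (sub_eq_zero.1 h).symm
    have hc1L : ∀ g : Ω ≃ₐ[F] Ω, g • ζ = ζ → g ((c - γ c) / (e - γ e)) = (c - γ c) / (e - γ e) := by
      intro g hg
      rw [map_div₀, map_sub, map_sub, he.1 g hg, hc.1 g hg, fixL hS he.1 g hg, fixL hS hc.1 g hg]
    have hc1 : γ ((c - γ c) / (e - γ e)) = (c - γ c) / (e - γ e) := by
      rw [map_div₀, map_sub, map_sub, h2 e he, h2 c hc, ← neg_sub c (γ c), ← neg_sub e (γ e), neg_div_neg_eq]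
    refine ⟨c - (c - γ c) / (e - γ e) * e, (c - γ c) / (e - γ e), ?_, fixF hS hc1L hc1, by ring⟩
    refine fixF hS (fun g hg => by rw [map_sub, map_mul, hc1L g hg, he.1 g hg, hc.1 g hg]) ?_
    rw [map_sub, map_mul, hc1]
    field_simp
    ring

/-- Two elements fixed by γ^2 have symbol with norm zero, if k^2 is not 1 modulo ℓ. -/
theorem ee (hS : SymAx ℓ F ζ γ k d sym Γ) {B : Ωˣ → Ωˣ → Q} (h : BX ℓ F ζ γ k B)
    (hk : (k : ZMod ℓ) ^ 2 ≠ 1) (a b : Ωˣ)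
    (ha : (a : Ω) ∈ fixE F ζ (γ ^ 2)) (hb : (b : Ω) ∈ fixE F ζ (γ ^ 2)) : B a b = 0 := by
  have haL : InL F ζ a := fun g hg => Units.ext (ha.1 g hg)
  have hbL : InL F ζ b := fun g hg => Units.ext (hb.1 g hg)
  have h1 := h.gal _ _ (InL_gamma hS haL) (InL_gamma hS hbL)
  rw [h.gal _ _ haL hbL, ← mul_smul, ← mul_smul, ← pow_two] at h1
  have h2 : γ ^ 2 • a = a := Units.ext ha.2
  have h3 : γ ^ 2 • b = b := Units.ext hb.2
  rw [h2, h3, smul_smul] at h1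
  refine eq_zero_of_nsmul_eq (ℓ := ℓ) h1.symm (h.tors a b haL hbL) ?_
  push_cast
  rw [← pow_two]
  exact hk

theorem ksq (hS : SymAx ℓ F ζ γ k d sym Γ) (hd : ¬ d ∣ 2) : (k : ZMod ℓ) ^ 2 ≠ 1 := by
  intro h
  apply hd
  rw [← hS.ord]
  exact orderOf_dvd_of_pow_eq_one h

theorem six : HeartStatement.{u} ℓ 6 := by
  intro F Ω _ _ _ _ _ ζ γ k Q _ sym Γ hS a b ha hb
  set B : Ωˣ → Ωˣ → Q := fun a b => ∑ i ∈ Finset.range 6, (Γ ^ i : AddMonoid.End Q) (sym a b) with hB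
  have h : BX ℓ F ζ γ k B := bx_norm hS
  have hEE := ee hS h (ksq hS (by norm_num))
  have hord : orderOf (k : ZMod ℓ) = 6 := hS.ord
  -- ℓ is prime to 6
  have hdvd : 6 ∣ ℓ - 1 := by
    have hk0 : (k : ZMod ℓ) ≠ 0 := by
      intro h0
      rw [h0] at hord
      have h1 : (0 : ZMod ℓ) ^ 6 = 1 := by rw [← hord]; exact pow_orderOf_eq_one _
      norm_num at h1
    rw [← hord]
    exact orderOf_dvd_of_pow_eq_one (ZMod.pow_card_sub_one_eq_one hk0)
  have hl1 : 1 < ℓ := (Fact.out : ℓ.Prime).one_lt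
  have h3c : Nat.Coprime 3 ℓ := by
    refine (Nat.Prime.coprime_iff_not_dvd Nat.prime_three).2 fun h3 => ?_
    omega
  have h2c : Nat.Coprime 2 ℓ := by
    refine (Nat.Prime.coprime_iff_not_dvd Nat.prime_two).2 fun h3 => ?_
    have : Odd ℓ := Fact.out
    rcases this with ⟨m, hm⟩
    omega
  have hγ6 : ∀ x : Ω, (∀ g : Ω ≃ₐ[F] Ω, g • ζ = ζ → g x = x) → γ (γ (γ (γ (γ (γ x))))) = x := by
    intro x hx
    have h1 := hx _ (gamma_d hS)
    exact h1
  have hg2 : ∀ x : Ω, (γ ^ 2 : Ω ≃ₐ[F] Ω) x = γ (γ x) := fun x => by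
    rw [pow_two]
    rfl
  -- elements of trace zero
  have htr : ∀ w : Ωˣ, InL F ζ w → (w : Ω) + γ (γ w) + γ (γ (γ (γ (w : Ω)))) = 0 →
      ∀ e : Ωˣ, (e : Ω) ∈ fixE F ζ (γ ^ 2) → B w e = 0 := by
    intro w hw hT e he
    have hw1 : ∀ g : Ω ≃ₐ[F] Ω, g • ζ = ζ → g (w : Ω) = w := fun g hg => congrArg Units.val (hw g hg)
    have hw2 := fixL hS (fixL hS hw1)
    have hw3 := fixL hS (fixL hS hw2)
    have h6 := hγ6 w hw1
    set w1 : Ω := γ (γ (w : Ω)) with hw1d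
    set w2 : Ω := γ (γ w1) with hw2d
    have hw2' : γ (γ w2) = w := h6
    refine h.trinomial (fixE F ζ (γ ^ 2)) (fun e he => he.1) hEE (dec2 hS) hw (i := 3) (j := 1) (m := 2) rfl
      h3c (Nat.coprime_one_left ℓ) h2c (a := w * w1 + w * w2 + w1 * w2) (c := - (w * w1 * w2)) ?_ ?_ ?_ ?_ e he
    · refine ⟨fun g hg => ?_, ?_⟩
      · simp only [map_add, map_mul]
        rw [hw1 g hg, hw2 g hg, hw3 g hg]
      · rw [hg2]
        simp only [map_add, map_mul]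
        rw [hw2', ← hw1d, ← hw2d]
        ring
    · refine ⟨fun g hg => ?_, ?_⟩
      · simp only [map_neg, map_mul]
        rw [hw1 g hg, hw2 g hg, hw3 g hg]
      · rw [hg2]
        simp only [map_neg, map_mul]
        rw [hw2', ← hw1d, ← hw2d]
        ring
    · have hw1n : w1 ≠ 0 := by
        rw [hw1d]
        simp
      have hw2n : w2 ≠ 0 := by
        rw [hw2d]
        simpa using hw1n
      exact neg_ne_zero.2 (mul_ne_zero (mul_ne_zero w.ne_zero hw1n) hw2n)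
    · rw [pow_one]
      linear_combination ((w : Ω) ^ 2) * hT
  -- the subfield E is in the radical
  have hrad : ∀ e l : Ωˣ, (e : Ω) ∈ fixE F ζ (γ ^ 2) → InL F ζ l → B e l = 0 := by
    intro e l he hl
    have heL : InL F ζ e := fun g hg => Units.ext (he.1 g hg)
    by_cases hlE : (l : Ω) ∈ fixE F ζ (γ ^ 2)
    · exact hEE e l he hlE
    · have hl1' : ∀ g : Ω ≃ₐ[F] Ω, g • ζ = ζ → g (l : Ω) = l := fun g hg => congrArg Units.val (hl g hg)
      have hl2' := fixL hS (fixL hS hl1')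
      have hl3' := fixL hS (fixL hS hl2')
      have h6 := hγ6 l hl1'
      have hw0 : γ (γ (l : Ω)) - γ (γ (γ (γ (l : Ω)))) ≠ 0 := by
        intro h0
        apply hlE
        refine ⟨hl1', ?_⟩
        rw [hg2]
        have h1 := sub_eq_zero.1 h0
        have h2 := γ.injective (γ.injective h1)
        exact h2.symm
      set w : Ωˣ := Units.mk0 _ hw0 with hwd
      have hwv : (w : Ω) = γ (γ (l : Ω)) - γ (γ (γ (γ (l : Ω)))) := rfl
      have hwL : InL F ζ w := fun g hg => Units.ext (by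
        rw [smul_coe, hwv, map_sub, hl2' g hg, hl3' g hg])
      have h1 := htr w hwL (by
        rw [hwv]
        simp only [map_sub]
        rw [h6]
        ring) e he
      have h2 := htr (l * w) (InL_mul hl hwL) (by
        rw [Units.val_mul, hwv]
        simp only [map_sub, map_mul]
        rw [h6]
        ring) e he
      rw [h.add_left _ _ _ hl hwL heL, h1, add_zero] at h2
      rw [h.anti heL hl, h2, neg_zero]
  have h7 : ζ ^ ℓ = 1 := hS.prim.pow_eq_one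
  have hrel := H22.rel (ℓ := ℓ) F Ω ζ (γ ^ 2) (fixE F ζ (γ ^ 2)) h7 ⟨k ^ 2, gamma_pow' hS 2⟩ (by
    left
    rw [← pow_mul]
    exact gamma_d hS) (fun e => Iff.rfl)
  have hmain := gen (ℓ := ℓ) F Ω ζ γ k 6 Q sym Γ hS (fixE F ζ (γ ^ 2)) (fun e he => he.1) hrel
    (∑ i ∈ Finset.range 6, (Γ ^ i : AddMonoid.End Q)) (fun e l he hl => by
      have h1 := hrad e l he hl
      rw [← h1]
      exact AddMonoidHom.finsetSum_apply _ _ _) a b ha hb
  rw [← hmain]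
  exact (AddMonoidHom.finsetSum_apply _ _ _).symm

end

end BRP.H88
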