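import Pool.Agent.Lib.MP_defcf3_al.BRP.H88.SevenTen

/-! The affine lemma in pair form. -/

namespace BRP.H88

theorem affinePair (K F Q : Type*) [Field K] [Field F] [AddCommGroup Q] [Module K Q] : AffinePair K F Q := by
  intro τ n R hirr hR0 hRh hRm r t m ht hm0 hm4 hrel
  -- the norm of a nonzero pair does not vanish
  have hq0 : ∀ z : F, z * z - τ * z + n ≠ 0 := hirr
  -- conjugation
  have hconj : ∀ c d, R (-c) (c * τ + d) = - R c d := by
    intro c d
    by_cases hcd : c ≠ 0 ∨ d ≠ 0
    · have hcd' : -c ≠ 0 ∨ c * τ + d ≠ 0 := by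
        by_cases hc : c = 0
        · right
          rw [hc, zero_mul, zero_add]
          exact hcd.resolve_left (fun h => h hc)
        · left
          exact neg_ne_zero.2 hc
      have h1 := hRm c d (-c) (c * τ + d) hcd hcd'
      have h2 : c * -c * τ + c * (c * τ + d) + -c * d = 0 := by ring
      rw [h2, hR0] at h1
      exact eq_neg_of_add_eq_zero_right h1.symm
    · rw [not_or, not_not, not_not] at hcd
      rw [hcd.1, neg_zero, hR0, hR0, neg_zero]
  -- the linear map attached to η
  have hsig : ∀ c d, R (t * c) (r * c + d) = m • R c d := by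
    intro c d
    by_cases hc : c = 0
    · rw [hc, mul_zero, mul_zero, zero_add, hR0, smul_zero]
    · have h1 := hRh c t (r + d / c) hc
      have h2 := hRh c 1 (d / c) hc
      have h3 := hrel (- (d / c))
      rw [sub_neg_eq_add, neg_neg] at h3
      rw [h3, ← h2] at h1
      rw [mul_one, mul_div_cancel₀ _ hc] at h1
      rw [← h1]
      congr 1
      · ring
      · field_simp
  -- conclusion from a translation
  have hend : ∀ (e : F) (M : K), (∀ c d, R c (d + e * c) = M • R c d) → M * M ≠ 1 → ∀ c d, R c d = 0 := by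
    intro e M hT hM c d
    have h1 := hT (-c) (c * τ + d)
    have h2 : c * τ + d + e * -c = c * τ + (d - e * c) := by ring
    rw [h2, hconj, hconj, smul_neg, neg_inj] at h1
    have h3 := hT c (d - e * c)
    rw [sub_add_cancel, h1, smul_smul] at h3
    have h4 : (M * M - 1) • R c d = 0 := by
      rw [sub_smul, one_smul, ← h3, sub_self]
    exact (smul_eq_zero.1 h4).resolve_left (sub_ne_zero.2 hM)
  by_cases ht1 : t = 1
  · refine hend r m (fun c d => ?_) ?_
    · have h1 := hsig c d
      rw [ht1, one_mul] at h1
      rw [add_comm d, h1]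
    · intro h1
      apply hm4
      have : m ^ 4 = (m * m) ^ 2 := by ring
      rw [this, h1, one_pow]
  -- multiplicativity for the second structure
  set τ' := 2 * r + t * τ with hτ'
  set n' := r * r + r * t * τ + t * t * n with hn'
  have hRm' : ∀ c d c' d', (c ≠ 0 ∨ d ≠ 0) → (c' ≠ 0 ∨ d' ≠ 0) →
      R (c * c' * τ' + c * d' + c' * d) (d * d' - c * c' * n') = R c d + R c' d' := by
    intro c d c' d' h1 h2
    have hne : ∀ a b : F, (a ≠ 0 ∨ b ≠ 0) → (t * a ≠ 0 ∨ r * a + b ≠ 0) := by
      intro a b hab
      by_cases ha : a = 0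
      · right
        rw [ha, mul_zero, zero_add]
        exact hab.resolve_left (fun h => h ha)
      · left
        exact mul_ne_zero ht ha
    have h3 := hRm (t * c) (r * c + d) (t * c') (r * c' + d') (hne _ _ h1) (hne _ _ h2)
    rw [hsig, hsig, ← smul_add] at h3
    have h4 := hsig (c * c' * τ' + c * d' + c' * d) (d * d' - c * c' * n')
    have e1 : t * (c * c' * τ' + c * d' + c' * d) =
        t * c * (t * c') * τ + t * c * (r * c' + d') + t * c' * (r * c + d) := by
      rw [hτ']
      ring
    have e2 : r * (c * c' * τ' + c * d' + c' * d) + (d * d' - c * c' * n') =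
        (r * c + d) * (r * c' + d') - t * c * (t * c') * n := by
      rw [hτ', hn']
      ring
    rw [e1, e2, h3] at h4
    exact (smul_right_injective Q hm0 h4).symm
  -- the affine maps
  set z := r / (1 - t) with hz
  have h1t : 1 - t ≠ 0 := sub_ne_zero.2 (Ne.symm ht1)
  have hzr : z * (1 - t) = r := div_mul_cancel₀ _ h1t
  set q := z * z - τ * z + n with hq
  have hqn : q ≠ 0 := hq0 z
  set J := n * (τ' - z) - n' * (τ - z) with hJ
  have hA : ∀ c d, R (t * t * c) (J / q * c + d) = R c d := by
    intro c d
    by_cases hcd : c ≠ 0 ∨ d ≠ 0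
    · have hp1 : t * t * q * c ≠ 0 ∨ J * c + q * d ≠ 0 := by
        by_cases hc : c = 0
        · right
          rw [hc, mul_zero, zero_add]
          exact mul_ne_zero hqn (hcd.resolve_left (fun h => h hc))
        · left
          exact mul_ne_zero (mul_ne_zero (mul_ne_zero ht ht) hqn) hc
      have h10 : (1 : F) ≠ 0 ∨ -z ≠ 0 := Or.inl one_ne_zero
      have h1 := hRm 1 (-z) _ _ h10 hp1
      have h2 := hRm' 1 (-z) c d h10 hcd
      have h3 := hRh q (1 * c * τ' + 1 * d + c * -z) (-z * d - 1 * c * n') hqn
      have e1 : q * (1 * c * τ' + 1 * d + c * -z) =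
          1 * (t * t * q * c) * τ + 1 * (J * c + q * d) + t * t * q * c * -z := by
        rw [hJ, hq, hτ', hn', ← hzr]
        ring
      have e2 : q * (-z * d - 1 * c * n') = -z * (J * c + q * d) - 1 * (t * t * q * c) * n := by
        rw [hJ, hq, hτ', hn', ← hzr]
        ring
      rw [e1, e2, h1, h2] at h3
      have h4 := add_left_cancel h3
      rw [← h4, ← hRh q (t * t * c) (J / q * c + d) hqn]
      congr 1
      · ring
      · field_simp
    · rw [not_or, not_not, not_not] at hcd
      rw [hcd.1, mul_zero, hR0, hR0]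
  refine hend (r * t + r - J / q) (m * m) (fun c d => ?_) ?_
  · have h1 := hA c (d + (r * t + r - J / q) * c)
    have h2 := hsig (t * c) (r * c + d)
    rw [hsig c d, smul_smul] at h2
    rw [← h1, ← h2]
    congr 1
    · ring
    · ring
  · intro h1
    apply hm4
    have : m ^ 4 = m * m * (m * m) := by ring
    rw [this, h1]

end BRP.H88
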