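import Pool.Agent.Lib.MP_defcf3_al.BRP.H88.Six

/-!
The heart over the field L = F(ζ) itself: reduction of HeartStatement ℓ d to a statement on bimultiplicative maps
over a cyclic extension L/F of degree d.
-/

namespace BRP.H88

universe u

open BR7 BR7.H50 BRP.H50

structure Sy (F : Type*) {L Q : Type*} [Field F] [Field L] [Algebra F L] [AddCommGroup Q] (β : L → L → Q) : Prop where
  zl : ∀ b, β 0 b = 0
  zr : ∀ a, β a 0 = 0
  ml : ∀ a a' b, a ≠ 0 → a' ≠ 0 → β (a * a') b = β a b + β a' b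
  mr : ∀ a b b', b ≠ 0 → b' ≠ 0 → β a (b * b') = β a b + β a b'
  self : ∀ a, β a a = 0
  st : ∀ a b, a + b = 1 → β a b = 0
  fl : ∀ (f : F) b, β (algebraMap F L f) b = 0

/-- The statement over a cyclic extension L/F of degree d, s being a generator of its Galois group. -/
def PureStatement (ℓ d : ℕ) : Prop :=
  ∀ (F L Q : Type u) [Field F] [Field L] [Algebra F L] [AddCommGroup Q] [Module (ZMod ℓ) Q]
    (s : L ≃ₐ[F] L) (w : ZMod ℓ) (β : L → L → Q), Module.finrank F L = d → (∀ x, (s ^ d) x = x) →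
    (∀ x, s x = x → ∃ f : F, algebraMap F L f = x) → orderOf w = d → (ℓ : F) ≠ 0 → Sy F β →
    (∀ a b, β (s a) (s b) = w • β a b) → ∀ a b, β a b = 0

variable {ℓ : ℕ} [Fact ℓ.Prime] [Fact (Odd ℓ)]

section

variable {F Ω : Type u} [Field F] [Field Ω] [Algebra F Ω] {ζ : Ωˣ} {γ : Ω ≃ₐ[F] Ω} {k d : ℕ}
  {Q : Type u} [AddCommGroup Q] {sym : Ωˣ → Ωˣ → Q} {Γ : AddMonoid.End Q}

theorem mem_fixing (g : Ω ≃ₐ[F] Ω) :
    g ∈ (IntermediateField.adjoin F {(ζ : Ω)}).fixingSubgroup ↔ g • ζ = ζ := by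
  rw [IntermediateField.mem_fixingSubgroup_iff]
  constructor
  · intro h
    exact Units.ext (h _ (IntermediateField.mem_adjoin_simple_self F (ζ : Ω)))
  · intro h x hx
    have h1 : g (ζ : Ω) = ζ := congrArg Units.val h
    have h2 : IntermediateField.adjoin F {(ζ : Ω)} ≤
        IntermediateField.fixedField (Subgroup.zpowers g) := by
      rw [IntermediateField.adjoin_le_iff]
      rintro y hy
      rw [Set.mem_singleton_iff] at hy
      subst hy
      rw [SetLike.mem_coe, IntermediateField.mem_fixedField_iff]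
      intro f hf
      have h3 : Subgroup.zpowers g ≤ MulAction.stabilizer (Ω ≃ₐ[F] Ω) (ζ : Ω) := by
        rw [Subgroup.zpowers_le]
        exact h1
      exact h3 hf
    exact (IntermediateField.mem_fixedField_iff _ _).1 (h2 hx) g (Subgroup.mem_zpowers g)

theorem mem_L [IsGalois F Ω] (x : Ω) :
    x ∈ IntermediateField.adjoin F {(ζ : Ω)} ↔ ∀ g : Ω ≃ₐ[F] Ω, g • ζ = ζ → g x = x := by
  constructor
  · intro hx g hg
    exact (IntermediateField.mem_fixingSubgroup_iff _ _).1 ((mem_fixing g).2 hg) x hx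
  · intro hx
    rw [← InfiniteGalois.fixedField_fixingSubgroup (IntermediateField.adjoin F {(ζ : Ω)}),
      IntermediateField.mem_fixedField_iff]
    intro f hf
    exact hx f ((mem_fixing f).1 hf)

theorem finrank_L [IsGalois F Ω] (hS : SymAx ℓ F ζ γ k d sym Γ) :
    Module.finrank F (IntermediateField.adjoin F {(ζ : Ω)}) = d := by
  rw [IntermediateField.finrank_eq_fixingSubgroup_index]
  have h1 : (IntermediateField.adjoin F {(ζ : Ω)}).fixingSubgroup = MulAction.stabilizer (Ω ≃ₐ[F] Ω) ζ := by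
    ext g
    rw [mem_fixing, MulAction.mem_stabilizer_iff]
  rw [h1, MulAction.index_stabilizer]
  have h2 : MulAction.orbit (Ω ≃ₐ[F] Ω) ζ = (fun i : ℕ => γ ^ i • ζ) '' (Finset.range d : Set ℕ) := by
    ext x
    constructor
    · rintro ⟨g, rfl⟩
      obtain ⟨i, hi⟩ := hS.gen g
      have hd : 0 < d := by
        rw [← hS.ord]
        have hk0 : IsUnit (k : ZMod ℓ) := by
          rw [isUnit_iff_ne_zero]
          intro h0
          have h3 : ℓ ∣ k := (ZMod.natCast_eq_zero_iff _ _).1 h0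
          obtain ⟨m, hm⟩ := h3
          have h4 := hS.act
          rw [hm, pow_mul, hS.prim.pow_eq_one, one_pow] at h4
          have h5 : ζ = 1 := by
            rw [← inv_smul_smul γ ζ, h4, smul_one]
          have h6 := hS.prim
          rw [h5] at h6
          have h7 := h6.unique (IsPrimitiveRoot.one)
          exact (Fact.out : ℓ.Prime).one_lt.ne' h7
        rw [← hk0.unit_spec, orderOf_units]
        exact orderOf_pos _
      refine ⟨i % d, ?_, ?_⟩
      · rw [Finset.mem_coe, Finset.mem_range]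
        exact Nat.mod_lt _ hd
      · change γ ^ (i % d) • ζ = g • ζ
        rw [hi]
        have hpow : ∀ n : ℕ, γ ^ (d * n) • ζ = ζ := by
          intro n
          induction n with
          | zero => simp
          | succ n ih => rw [mul_add, mul_one, pow_add, mul_smul, gamma_d hS, ih]
        conv_rhs => rw [← Nat.mod_add_div i d, pow_add, mul_smul, hpow]
    · rintro ⟨i, _, rfl⟩
      exact ⟨γ ^ i, rfl⟩
  rw [h2, Set.InjOn.ncard_image, Set.ncard_coe_finset, Finset.card_range]
  intro i hi j hj hij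
  rw [Finset.mem_coe, Finset.mem_range] at hi hj
  have h3 : ζ ^ (k ^ i) = ζ ^ (k ^ j) := by
    rw [← gamma_pow' hS i, ← gamma_pow' hS j]
    exact hij
  have h4 : k ^ i ≡ k ^ j [MOD ℓ] := by
    have h5 := pow_eq_pow_iff_modEq.1 h3
    rwa [← hS.prim.eq_orderOf] at h5
  have h5 : (k : ZMod ℓ) ^ i = (k : ZMod ℓ) ^ j := by
    have h6 := (ZMod.natCast_eq_natCast_iff _ _ _).2 h4
    push_cast at h6
    exact h6
  have hk := hS.ord
  rw [← hk] at hi hj
  exact pow_injOn_Iio_orderOf hi hj h5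

end

/-- The heart follows from the statement over L. -/
theorem bridge {d : ℕ} (hP : PureStatement.{u} ℓ d) : HeartStatement.{u} ℓ d := by
  classical
  intro F Ω _ _ _ _ _ ζ γ k Q _ sym Γ hS a b ha hb
  set B : Ωˣ → Ωˣ → Q := fun a b => ∑ i ∈ Finset.range d, (Γ ^ i : AddMonoid.End Q) (sym a b) with hB
  have h : BX ℓ F ζ γ k B := bx_norm hS
  change B a b = 0
  let L : IntermediateField F Ω := IntermediateField.adjoin F {(ζ : Ω)}
  have hL : ∀ x : Ω, x ∈ L ↔ ∀ g : Ω ≃ₐ[F] Ω, g • ζ = ζ → g x = x := mem_L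
  have hγL : ∀ x : Ω, x ∈ L → γ x ∈ L := fun x hx => (hL _).2 (fixL hS ((hL _).1 hx))
  have hγd : ∀ x : Ω, x ∈ L → (γ ^ d) x = x := fun x hx => (hL _).1 hx _ (gamma_d hS)
  have hnL : ∀ (x : L) (hx : x ≠ 0), InL F ζ (Units.mk0 (x : Ω) (fun h => hx (Subtype.ext h))) := by
    intro x hx g hg
    exact Units.ext ((hL _).1 x.2 g hg)
  -- the restriction of γ
  let s0 : L →ₐ[F] L :=
    { toFun := fun x => ⟨γ x, hγL _ x.2⟩
      map_one' := Subtype.ext (map_one γ)
      map_mul' := fun x y => Subtype.ext (map_mul γ _ _)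
      map_zero' := Subtype.ext (map_zero γ)
      map_add' := fun x y => Subtype.ext (map_add γ _ _)
      commutes' := fun f => Subtype.ext (γ.commutes f) }
  have hs0 : ∀ x : L, ((s0 x : L) : Ω) = γ x := fun x => rfl
  have hs0i : ∀ (i : ℕ) (x : L), (((s0 ^ i) x : L) : Ω) = (γ ^ i) (x : Ω) := by
    intro i
    induction i with
    | zero => intro x; rfl
    | succ i ih =>
      intro x
      rw [pow_succ', pow_succ']
      change ((s0 ((s0 ^ i) x) : L) : Ω) = γ ((γ ^ i) (x : Ω))
      rw [hs0, ih]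
  have hdpos : 0 < d := by
    rw [← finrank_L hS]
    have : FiniteDimensional F (IntermediateField.adjoin F {(ζ : Ω)}) :=
      IntermediateField.adjoin.finiteDimensional (Algebra.IsIntegral.isIntegral _)
    exact Module.finrank_pos
  have hbij : Function.Bijective s0 := by
    refine ⟨s0.toRingHom.injective, fun x => ⟨(s0 ^ (d - 1)) x, ?_⟩⟩
    have h1 : s0 ((s0 ^ (d - 1)) x) = (s0 ^ d) x := by
      conv_rhs => rw [show d = (d - 1) + 1 by omega, pow_succ']
      rfl
    rw [h1]
    refine Subtype.ext ?_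
    rw [hs0i, hγd _ x.2]
  let s : L ≃ₐ[F] L := AlgEquiv.ofBijective s0 hbij
  have hs : ∀ x : L, ((s x : L) : Ω) = γ x := fun x => rfl
  have hsi : ∀ (i : ℕ) (x : L), (((s ^ i) x : L) : Ω) = (γ ^ i) (x : Ω) := by
    intro i
    induction i with
    | zero => intro x; rfl
    | succ i ih =>
      intro x
      rw [pow_succ', pow_succ']
      change ((s ((s ^ i) x) : L) : Ω) = γ ((γ ^ i) (x : Ω))
      rw [hs, ih]
  -- the group of values
  let Q' : AddSubgroup Q :=
    { carrier := {x | ℓ • x = 0}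
      zero_mem' := smul_zero _
      add_mem' := fun {x y} hx hy => by
        change ℓ • (x + y) = 0
        rw [smul_add, show ℓ • x = 0 from hx, show ℓ • y = 0 from hy, add_zero]
      neg_mem' := fun {x} hx => by
        change ℓ • (-x) = 0
        rw [smul_neg, show ℓ • x = 0 from hx, neg_zero] }
  let _ : Module (ZMod ℓ) Q' := AddCommGroup.zmodModule fun x => Subtype.ext x.2
  let β : L → L → Q' := fun x y =>
    if hxy : x ≠ 0 ∧ y ≠ 0 then ⟨B (Units.mk0 (x : Ω) (fun h => hxy.1 (Subtype.ext h)))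
      (Units.mk0 (y : Ω) (fun h => hxy.2 (Subtype.ext h))), h.tors _ _ (hnL x hxy.1) (hnL y hxy.2)⟩ else 0
  have hβ : ∀ (x y : L) (hx : x ≠ 0) (hy : y ≠ 0), ((β x y : Q') : Q) =
      B (Units.mk0 (x : Ω) (fun h => hx (Subtype.ext h))) (Units.mk0 (y : Ω) (fun h => hy (Subtype.ext h))) := by
    intro x y hx hy
    simp only [β, dif_pos (And.intro hx hy)]
  have hβl : ∀ y, β 0 y = 0 := by
    intro y
    simp only [β, ne_eq, not_true_eq_false, false_and, dite_false]
  have hβr : ∀ x, β x 0 = 0 := by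
    intro x
    simp only [β, ne_eq, not_true_eq_false, and_false, dite_false]
  have hSy : Sy F β := by
    refine ⟨hβl, hβr, ?_, ?_, ?_, ?_, ?_⟩
    · intro x x' y hx hx'
      by_cases hy : y = 0
      · rw [hy, hβr, hβr, hβr, add_zero]
      · refine Subtype.ext ?_
        rw [AddSubgroup.coe_add, hβ _ _ (mul_ne_zero hx hx') hy, hβ _ _ hx hy, hβ _ _ hx' hy,
          ← h.add_left _ _ _ (hnL x hx) (hnL x' hx') (hnL y hy)]
        congr 1
        exact Units.ext rfl
    · intro x y y' hy hy'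
      by_cases hx : x = 0
      · rw [hx, hβl, hβl, hβl, add_zero]
      · refine Subtype.ext ?_
        rw [AddSubgroup.coe_add, hβ _ _ hx (mul_ne_zero hy hy'), hβ _ _ hx hy, hβ _ _ hx hy',
          ← h.add_right _ _ _ (hnL x hx) (hnL y hy) (hnL y' hy')]
        congr 1
        exact Units.ext rfl
    · intro x
      by_cases hx : x = 0
      · rw [hx, hβl]
      · refine Subtype.ext ?_
        rw [hβ _ _ hx hx, h.self _ (hnL x hx)]
        rfl
    · intro x y hxy
      by_cases hx : x = 0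
      · rw [hx, hβl]
      by_cases hy : y = 0
      · rw [hy, hβr]
      refine Subtype.ext ?_
      rw [hβ _ _ hx hy, h.stein _ _ (hnL x hx) (hnL y hy) (congrArg Subtype.val hxy)]
      rfl
    · intro f y
      by_cases hx : algebraMap F L f = 0
      · rw [hx, hβl]
      by_cases hy : y = 0
      · rw [hy, hβr]
      have hfF : InF F (Units.mk0 ((algebraMap F L f : L) : Ω) (fun h => hx (Subtype.ext h))) :=
        fun g => Units.ext (g.commutes f)
      refine Subtype.ext ?_
      rw [hβ _ _ hx hy, h.base _ _ hfF (hnL y hy)]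
      rfl
  have hg : ∀ x y, β (s x) (s y) = (k : ZMod ℓ) • β x y := by
    intro x y
    by_cases hx : x = 0
    · rw [hx, map_zero, hβl, hβl, smul_zero]
    by_cases hy : y = 0
    · rw [hy, map_zero, hβr, hβr, smul_zero]
    have hsx : s x ≠ 0 := fun h => hx ((map_eq_zero_iff s s.injective).1 h)
    have hsy : s y ≠ 0 := fun h => hy ((map_eq_zero_iff s s.injective).1 h)
    refine Subtype.ext ?_
    rw [Nat.cast_smul_eq_nsmul, AddSubgroup.coe_nsmul, hβ _ _ hsx hsy, hβ _ _ hx hy,
      ← h.gal _ _ (hnL x hx) (hnL y hy)]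
    congr 1 <;> exact Units.ext rfl
  have hℓF : (ℓ : F) ≠ 0 := by
    intro h0
    have h1 : NeZero ((ℓ : ℕ) : Ω) := (IsPrimitiveRoot.coe_units_iff.2 hS.prim).neZero'
    refine h1.out ?_
    rw [← map_natCast (algebraMap F Ω), h0, map_zero]
  have hfix : ∀ x, s x = x → ∃ f : F, algebraMap F L f = x := by
    intro x hx
    have h1 : γ (x : Ω) = x := congrArg Subtype.val hx
    have h2 := (InfiniteGalois.mem_range_algebraMap_iff_fixed (x : Ω)).2 (fixF hS ((hL _).1 x.2) h1)
    obtain ⟨f, hf⟩ := h2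
    exact ⟨f, Subtype.ext hf⟩
  have hmain := hP F L Q' s (k : ZMod ℓ) β (finrank_L hS) (fun x => Subtype.ext (by
    rw [hsi, hγd _ x.2])) hfix hS.ord hℓF hSy hg
  have haL : (a : Ω) ∈ L := (hL _).2 fun g hg => congrArg Units.val (ha g hg)
  have hbL : (b : Ω) ∈ L := (hL _).2 fun g hg => congrArg Units.val (hb g hg)
  have h3 := hβ ⟨a, haL⟩ ⟨b, hbL⟩ (fun h => a.ne_zero (congrArg Subtype.val h))
    (fun h => b.ne_zero (congrArg Subtype.val h))
  rw [hmain] at h3
  have h4 : Units.mk0 (a : Ω) a.ne_zero = a := Units.ext rfl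
  have h5 : Units.mk0 (b : Ω) b.ne_zero = b := Units.ext rfl
  have h6 : B (Units.mk0 (a : Ω) a.ne_zero) (Units.mk0 (b : Ω) b.ne_zero) = 0 := h3.symm
  rwa [h4, h5] at h6

end BRP.H88
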