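import Pool.Agent.Lib.MP_defcf3_al.BRP.H88.Bridge

/-! The heart for [F(ζ):F] = 5 from the theorem over L. -/

namespace BRP.H88

universe u

/-- The theorem for d = 5 over a cyclic extension L/F. -/
def FivePure : Prop :=
  ∀ (K : Type) (F L Q : Type u) [Field K] [Field F] [Field L] [Algebra F L] [AddCommGroup Q] [Module K Q]
    (_ : Module.finrank F L = 5) (s : L ≃ₐ[F] L) (_ : ∀ x, s (s (s (s (s x)))) = x)
    (_ : ∀ x, s x = x → ∃ f : F, algebraMap F L f = x) (w : K) (_ : w ^ 4 + w ^ 3 + w ^ 2 + w + 1 = 0)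
    (_ : (2 : K) ≠ 0) (_ : (3 : K) ≠ 0) (_ : (5 : K) ≠ 0) (β : L → L → Q) (_ : Sy F β)
    (_ : ∀ a b, β (s a) (s b) = w • β a b), ∀ a b, β a b = 0

theorem five_of {ℓ : ℕ} [Fact ℓ.Prime] [Fact (Odd ℓ)] (hP : FivePure.{u}) : BRP.HeartStatement.{u} ℓ 5 := by
  refine bridge ?_
  intro F L Q _ _ _ _ _ s w β hd hs hfix hw _ hSy hg
  have hw0 : w ≠ 0 := by
    intro h0
    rw [h0] at hw
    have h1 : (0 : ZMod ℓ) ^ 5 = 1 := by
      rw [← hw]
      exact pow_orderOf_eq_one _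
    norm_num at h1
  have hdvd : 5 ∣ ℓ - 1 := by
    rw [← hw]
    exact orderOf_dvd_of_pow_eq_one (ZMod.pow_card_sub_one_eq_one hw0)
  have hl1 : 1 < ℓ := (Fact.out : ℓ.Prime).one_lt
  have hodd : Odd ℓ := Fact.out
  have hl6 : 5 < ℓ := by omega
  have hne : ∀ n : ℕ, 0 < n → n < ℓ → ((n : ℕ) : ZMod ℓ) ≠ 0 := by
    intro n h1 h2 h3
    exact absurd (Nat.le_of_dvd h1 ((ZMod.natCast_eq_zero_iff _ _).1 h3)) (not_le.2 h2)
  have hw5 : w ^ 5 = 1 := by
    rw [← hw]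
    exact pow_orderOf_eq_one _
  have hw1 : w - 1 ≠ 0 := by
    intro h0
    have h1 : w = 1 := sub_eq_zero.1 h0
    rw [h1, orderOf_one] at hw
    norm_num at hw
  have hw4 : w ^ 4 + w ^ 3 + w ^ 2 + w + 1 = 0 := by
    have h1 : (w - 1) * (w ^ 4 + w ^ 3 + w ^ 2 + w + 1) = 0 := by
      linear_combination hw5
    exact (mul_eq_zero.1 h1).resolve_left hw1
  refine hP (ZMod ℓ) F L Q hd s (fun x => ?_) hfix w hw4 ?_ ?_ ?_ β hSy hg
  · exact hs x
  · exact_mod_cast hne 2 (by norm_num) (by omega)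
  · exact_mod_cast hne 3 (by norm_num) (by omega)
  · exact_mod_cast hne 5 (by norm_num) (by omega)

end BRP.H88
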