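import Pool.Agent.Lib.MP_defcf3_al.BRP.H88.AffPair
import Pool.Agent.Lib.MP_defcf3_al.BRP.H88.FiveOf

/-! The heart for [F(ζ):F] = 5 from step 6 of the proof. -/

namespace BRP.H88

universe u

/-- Step 6 of the proof for d = 5. -/
def StepSix : Prop :=
  ∀ (K : Type) (F L Q : Type u) [Field K] [Field F] [Field L] [Algebra F L] [AddCommGroup Q] [Module K Q]
    (_ : Module.finrank F L = 5) (s : L ≃ₐ[F] L) (_ : ∀ x, s (s (s (s (s x)))) = x)
    (_ : ∀ x, s x = x → ∃ f : F, algebraMap F L f = x) (w : K) (_ : w ^ 4 + w ^ 3 + w ^ 2 + w + 1 = 0)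
    (_ : (2 : K) ≠ 0) (_ : (3 : K) ≠ 0) (_ : (5 : K) ≠ 0) (β : L → L → Q) (_ : Sy F β)
    (_ : ∀ a b, β (s a) (s b) = w • β a b) (x : L) (a b : F),
    β (x - algebraMap F L a) (s x - algebraMap F L b) = 0

theorem five_of_stepSix {ℓ : ℕ} [Fact ℓ.Prime] [Fact (Odd ℓ)] (h6 : StepSix.{u}) :
    BRP.HeartStatement.{u} ℓ 5 := by
  refine five_of ?_
  intro K F L Q _ _ _ _ _ _ hdim s hs5 hfix w hw h2 h3 h5 β h hg
  have hw5 : w ^ 5 = 1 := by linear_combination (w - 1) * hw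
  have hw1 : w ≠ 1 := by
    intro h0
    rw [h0] at hw
    exact h5 (by linear_combination hw)
  exact sevenTen (affinePair K F Q) hdim s hs5 w hw5 hw1 h hg
    (fun x a b => h6 K F L Q hdim s hs5 hfix w hw h2 h3 h5 β h hg x a b)

end BRP.H88
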