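import Pool.Agent.Lib.MP_defcf3_al.BRP.H88.SyApi

/-! Steps 7 to 10 of the proof for d = 5. -/

namespace BRP.H88

/-- The affine lemma for functions of pairs (c, d), the pair standing for c θ + d, θ^2 = τ θ - n. -/
def AffinePair (K F Q : Type*) [Field K] [Field F] [AddCommGroup Q] [Module K Q] : Prop :=
  ∀ (τ n : F) (R : F → F → Q), (∀ b : F, b * b - τ * b + n ≠ 0) → (∀ d, R 0 d = 0) →
    (∀ e c d, e ≠ 0 → R (e * c) (e * d) = R c d) →
    (∀ c d c' d', (c ≠ 0 ∨ d ≠ 0) → (c' ≠ 0 ∨ d' ≠ 0) →
      R (c * c' * τ + c * d' + c' * d) (d * d' - c * c' * n) = R c d + R c' d') →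
    ∀ (r t : F) (m : K), t ≠ 0 → m ≠ 0 → m ^ 4 ≠ 1 → (∀ b, R t (r - b) = m • R 1 (-b)) → ∀ c d, R c d = 0

section Dim

variable {F L : Type*} [Field F] [Field L] [Algebra F L]

theorem indep5 (hdim : Module.finrank F L = 5) {x : L} (hx : ∀ f : F, algebraMap F L f ≠ x)
    {p : Polynomial F} (hp : p.natDegree ≤ 4) (h0 : Polynomial.aeval x p = 0) : p = 0 := by
  have : FiniteDimensional F L := Module.finite_of_finrank_pos (by rw [hdim]; norm_num)
  by_contra hne
  have hint : IsIntegral F x := Algebra.IsIntegral.isIntegral x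
  have h1 := minpoly.degree_dvd hint
  rw [hdim] at h1
  have h2 : (minpoly F x).natDegree = 1 ∨ (minpoly F x).natDegree = 5 :=
    (Nat.dvd_prime Nat.prime_five).1 h1
  rcases h2 with h2 | h2
  · obtain ⟨f, hf⟩ := minpoly.natDegree_eq_one_iff.1 h2
    exact hx f hf
  · have h3 := Polynomial.natDegree_le_natDegree (minpoly.degree_le_of_ne_zero F x hne h0)
    omega

theorem indep2 (hdim : Module.finrank F L = 5) {x : L} (hx : ∀ f : F, algebraMap F L f ≠ x)
    {c0 c1 c2 : F} (h0 : algebraMap F L c0 + algebraMap F L c1 * x + algebraMap F L c2 * x ^ 2 = 0) :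
    c0 = 0 ∧ c1 = 0 ∧ c2 = 0 := by
  have h1 := indep5 hdim hx (p := Polynomial.C c0 + Polynomial.C c1 * Polynomial.X +
    Polynomial.C c2 * Polynomial.X ^ 2) (by compute_degree!) (by simpa using h0)
  refine ⟨?_, ?_, ?_⟩
  · have := congrArg (fun p => Polynomial.coeff p 0) h1
    simpa [Polynomial.coeff_X, Polynomial.coeff_C] using this
  · have := congrArg (fun p => Polynomial.coeff p 1) h1
    simpa [Polynomial.coeff_X, Polynomial.coeff_C, Polynomial.coeff_X_pow] using this
  · have := congrArg (fun p => Polynomial.coeff p 2) h1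
    simpa [Polynomial.coeff_X, Polynomial.coeff_C, Polynomial.coeff_X_pow] using this

theorem frac5 (hdim : Module.finrank F L = 5) {x : L} (hx : ∀ f : F, algebraMap F L f ≠ x) (y : L) :
    ∃ u0 u1 u2 v0 v1 v2 : F,
      algebraMap F L v0 + algebraMap F L v1 * x + algebraMap F L v2 * x ^ 2 ≠ 0 ∧
      y * (algebraMap F L v0 + algebraMap F L v1 * x + algebraMap F L v2 * x ^ 2) =
        algebraMap F L u0 + algebraMap F L u1 * x + algebraMap F L u2 * x ^ 2 := by
  have : FiniteDimensional F L := Module.finite_of_finrank_pos (by rw [hdim]; norm_num)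
  have h1 : ¬ LinearIndependent F ![(1 : L), x, x ^ 2, y, y * x, y * x ^ 2] := by
    intro h
    have h2 := h.fintype_card_le_finrank
    rw [hdim] at h2
    simp at h2
  rw [Fintype.not_linearIndependent_iff] at h1
  obtain ⟨g, hg, i, hi⟩ := h1
  simp only [Fin.sum_univ_succ, Finset.univ_eq_empty, Finset.sum_empty, Algebra.smul_def] at hg
  have hg' : algebraMap F L (g 0) + algebraMap F L (g 1) * x + algebraMap F L (g 2) * x ^ 2 +
      y * (algebraMap F L (g 3) + algebraMap F L (g 4) * x + algebraMap F L (g 5) * x ^ 2) = 0 := by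
    have e1 : (Fin.succ 0 : Fin 6) = 1 := rfl
    have e2 : (Fin.succ (Fin.succ 0) : Fin 6) = 2 := rfl
    have e3 : (Fin.succ (Fin.succ (Fin.succ 0)) : Fin 6) = 3 := rfl
    have e4 : (Fin.succ (Fin.succ (Fin.succ (Fin.succ 0))) : Fin 6) = 4 := rfl
    have e5 : (Fin.succ (Fin.succ (Fin.succ (Fin.succ (Fin.succ 0)))) : Fin 6) = 5 := rfl
    have hg2 : algebraMap F L (g 0) * 1 + (algebraMap F L (g 1) * x + (algebraMap F L (g 2) * x ^ 2 +
      (algebraMap F L (g 3) * y + (algebraMap F L (g 4) * (y * x) +
      (algebraMap F L (g 5) * (y * x ^ 2) + 0))))) = 0 := hg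
    linear_combination hg2
  refine ⟨-g 0, -g 1, -g 2, g 3, g 4, g 5, ?_, ?_⟩
  · intro h0
    rw [h0, mul_zero, add_zero] at hg'
    obtain ⟨a0, a1, a2⟩ := indep2 hdim hx hg'
    obtain ⟨a3, a4, a5⟩ := indep2 hdim hx h0
    fin_cases i
    · exact hi a0
    · exact hi a1
    · exact hi a2
    · exact hi a3
    · exact hi a4
    · exact hi a5
  · simp only [map_neg]
    linear_combination hg'

end Dim

section Main

variable {K F L Q : Type*} [Field K] [Field F] [Field L] [Algebra F L] [AddCommGroup Q] [Module K Q]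
  {β : L → L → Q}

/-- The symbol of a linear form and a quadratic form with a root in F. -/
theorem root0 (h : Sy F β) {x : L} {c0 c1 c2 a : F}
    (ha : c0 + c1 * a + c2 * a ^ 2 = 0) (c d : F) :
    β (algebraMap F L c * x + algebraMap F L d)
      (algebraMap F L c0 + algebraMap F L c1 * x + algebraMap F L c2 * x ^ 2) = 0 := by
  have h1 : algebraMap F L c0 + algebraMap F L c1 * x + algebraMap F L c2 * x ^ 2 =
      (algebraMap F L 1 * x + algebraMap F L (-a)) * (algebraMap F L c2 * x + algebraMap F L (c1 + c2 * a)) := by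
    have h2 : algebraMap F L c0 + algebraMap F L c1 * algebraMap F L a +
        algebraMap F L c2 * algebraMap F L a ^ 2 = 0 := by
      rw [← map_pow, ← map_mul, ← map_mul, ← map_add, ← map_add, ha, map_zero]
    simp only [map_one, map_neg, map_add, map_mul]
    linear_combination h2
  rw [h1]
  by_cases h3 : algebraMap F L 1 * x + algebraMap F L (-a) = 0
  · rw [h3, zero_mul, h.zr]
  by_cases h4 : algebraMap F L c2 * x + algebraMap F L (c1 + c2 * a) = 0
  · rw [h4, mul_zero, h.zr]
  rw [h.mr _ _ _ h3 h4, h.lin, h.lin, add_zero]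

theorem sevenTen (hAL : AffinePair K F Q) (hdim : Module.finrank F L = 5) (s : L ≃ₐ[F] L)
    (hs5 : ∀ x, s (s (s (s (s x)))) = x) (w : K) (hw5 : w ^ 5 = 1) (hw1 : w ≠ 1)
    (h : Sy F β) (hg : ∀ a b, β (s a) (s b) = w • β a b)
    (h6 : ∀ (x : L) (a b : F), β (x - algebraMap F L a) (s x - algebraMap F L b) = 0) :
    ∀ a b, β a b = 0 := by
  set e := algebraMap F L with he
  have hw0 : w ≠ 0 := by
    intro h0
    rw [h0] at hw5
    norm_num at hw5
  have hw2 : w ^ 2 ≠ 1 := by
    intro h2
    apply hw1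
    have h3 : w ^ 5 = (w ^ 2) ^ 2 * w := by ring
    rw [h2, hw5, one_pow, one_mul] at h3
    exact h3.symm
  have hs0 : ∀ x : L, x ≠ 0 → s x ≠ 0 := fun x hx hh => hx ((map_eq_zero_iff s s.injective).1 hh)
  -- step 7
  have hself : ∀ x, β x (s x) = 0 := by
    intro x
    have := h6 x 0 0
    rwa [map_zero, sub_zero, sub_zero] at this
  have hpol : ∀ x y, β x (s y) = β (s x) y := by
    intro x y
    by_cases hx : x = 0
    · rw [hx, map_zero, h.zl, h.zl]
    by_cases hy : y = 0
    · rw [hy, map_zero, h.zr, h.zr]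
    have h1 := hself (x * y)
    rw [map_mul, h.ml _ _ _ hx hy, h.mr _ _ _ (hs0 x hx) (hs0 y hy), h.mr _ _ _ (hs0 x hx) (hs0 y hy),
      hself, hself, zero_add, add_zero] at h1
    rw [eq_neg_of_add_eq_zero_left h1, h.anti (s x) y]
  have h2s : ∀ x y, β x (s (s y)) = w • β x y := by
    intro x y
    rw [hpol, hg]
  have h1s : ∀ x y, β x (s y) = w ^ 3 • β x y := by
    intro x y
    have h1 := h2s x (s (s (s (s y))))
    rw [hs5, h2s, h2s] at h1
    rw [h1, smul_smul, smul_smul]
    congr 1
    ring
  have hls : ∀ x y, β (s x) y = w ^ 3 • β x y := by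
    intro x y
    rw [← hpol, h1s]
  have hls' : ∀ x y, β x y = w ^ 2 • β (s x) y := by
    intro x y
    rw [hls, smul_smul, ← pow_add]
    rw [show w ^ (2 + 3) = 1 from hw5, one_smul]
  -- main part
  intro x y
  by_cases hxF : ∃ f : F, e f = x
  · obtain ⟨f, hf⟩ := hxF
    rw [← hf, h.fl]
  have hx : ∀ f : F, e f ≠ x := fun f hf => hxF ⟨f, hf⟩
  have hlin0 : ∀ c d : F, (c ≠ 0 ∨ d ≠ 0) → e c * x + e d ≠ 0 := by
    intro c d hcd h0
    obtain ⟨h1, h2, _⟩ := indep2 hdim hx (c0 := d) (c1 := c) (c2 := 0) (by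
      rw [map_zero, zero_mul, add_zero]
      linear_combination h0)
    rcases hcd with hc | hd
    · exact hc h2
    · exact hd h1
  obtain ⟨u0, u1, u2, v0, v1, v2, hv, huv⟩ := frac5 hdim hx (s x)
  -- step 8
  set V : L → L := fun z => e v0 + e v1 * z + e v2 * z ^ 2 with hV
  set Qb : F → L → L := fun b z => e (u0 - b * v0) + e (u1 - b * v1) * z + e (u2 - b * v2) * z ^ 2 with hQb
  have hQbe : ∀ b, Qb b x = (s x - e b) * V x := by
    intro b
    simp only [hQb, hV, map_sub, map_mul]
    linear_combination - huv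
  have hsxb : ∀ b, s x - e b ≠ 0 := by
    intro b h0
    apply hx b
    apply s.injective
    rw [s.commutes]
    exact (sub_eq_zero.1 h0).symm
  have hQb0 : ∀ b, Qb b x ≠ 0 := by
    intro b
    rw [hQbe]
    exact mul_ne_zero (hsxb b) hv
  have hQV : ∀ a b, β (x - e a) (Qb b x) = β (x - e a) (V x) := by
    intro a b
    rw [hQbe, h.mr _ _ _ (hsxb b) hv, h6, zero_add]
  have hxa : ∀ a, x - e a = e 1 * x + e (-a) := by
    intro a
    rw [map_one, map_neg]
    ring
  have hVx : ∀ a, β (x - e a) (V x) = 0 := by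
    intro a
    by_cases hva : v0 + v1 * a + v2 * a ^ 2 = 0
    · rw [hxa]
      exact root0 h hva _ _
    · have hb := div_mul_cancel₀ (u0 + u1 * a + u2 * a ^ 2) hva
      rw [← hQV a ((u0 + u1 * a + u2 * a ^ 2) / (v0 + v1 * a + v2 * a ^ 2)), hxa]
      refine root0 h (a := a) ?_ _ _
      linear_combination - hb
  have hQx : ∀ a b, β (x - e a) (Qb b x) = 0 := fun a b => by rw [hQV, hVx]
  have hlinQ : ∀ (z : L), (∀ a, β (x - e a) z = 0) → ∀ c d, β (e c * x + e d) z = 0 := by
    intro z hz c d
    by_cases hc : c = 0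
    · rw [hc, map_zero, zero_mul, zero_add, h.fl]
    · have h1 : e c * x + e d = e c * (x - e (-d / c)) := by
        have hec : e c ≠ 0 := (map_ne_zero _).2 hc
        rw [map_div₀, map_neg]
        field_simp
        ring
      rw [h1, h.cmul_left hc, hz]
  -- step 9
  have h9 : ∀ (τ n : F) (b : F), β (x - e b) (x ^ 2 - e τ * x + e n) = 0 := by
    intro τ n
    have hq' : ∀ z : L, z ^ 2 - e τ * z + e n = e n + e (-τ) * z + e 1 * z ^ 2 := by
      intro z
      rw [map_one, map_neg]
      ring
    by_cases hroot : ∃ a : F, a * a - τ * a + n = 0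
    · obtain ⟨a, ha⟩ := hroot
      intro b
      rw [hq', hxa]
      exact root0 h (a := a) (by linear_combination ha) _ _
    have hirr : ∀ a : F, a * a - τ * a + n ≠ 0 := fun a ha => hroot ⟨a, ha⟩
    set q : L → L := fun z => z ^ 2 - e τ * z + e n with hq
    set R : F → F → Q := fun c d => β (e c * x + e d) (q x) with hR
    have hR0 : ∀ d, R 0 d = 0 := by
      intro d
      simp only [hR]
      rw [map_zero, zero_mul, zero_add, h.fl]
    have hRh : ∀ a c d, a ≠ 0 → R (a * c) (a * d) = R c d := by
      intro a c d ha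
      simp only [hR]
      rw [map_mul, map_mul, mul_assoc, ← mul_add, h.cmul_left ha]
    have hRm : ∀ c d c' d', (c ≠ 0 ∨ d ≠ 0) → (c' ≠ 0 ∨ d' ≠ 0) →
        R (c * c' * τ + c * d' + c' * d) (d * d' - c * c' * n) = R c d + R c' d' := by
      intro c d c' d' hcd hcd'
      simp only [hR]
      have n1 := hlin0 c d hcd
      have n2 := hlin0 c' d' hcd'
      set B := e (c * c' * τ + c * d' + c' * d) * x + e (d * d' - c * c' * n) with hB
      have hsum : B + e (c * c') * q x = (e c * x + e d) * (e c' * x + e d') := by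
        simp only [hB, hq, map_add, map_mul, map_sub]
        ring
      rw [← h.ml _ _ _ n1 n2, ← hsum]
      by_cases hcc : c * c' = 0
      · rw [hcc, map_zero, zero_mul, add_zero]
      · have h1 := h.st3 (a := B) (b := e (c * c') * q x) (c := B + e (c * c') * q x) rfl
        rw [h.cmul_right hcc, h.cmul_right hcc] at h1
        rw [h1]
        have h2 : β B (B + e (c * c') * q x) = 0 := by
          rw [hsum, h.mr _ _ _ n1 n2, hB, h.lin, h.lin, add_zero]
        rw [h2, zero_add]
    -- reductions of u and v modulo q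
    set cu := u1 + u2 * τ with hcu
    set du := u0 - u2 * n with hdu
    set cv := v1 + v2 * τ with hcv
    set dv := v0 - v2 * n with hdv
    have hVq : V x = e cv * x + e dv + e v2 * q x := by
      simp only [hV, hcv, hdv, hq, map_add, map_sub, map_mul]
      ring
    have hQq : ∀ b, Qb b x = e (cu - b * cv) * x + e (du - b * dv) + e (u2 - b * v2) * q x := by
      intro b
      simp only [hQb, hcu, hdu, hcv, hdv, hq, map_add, map_sub, map_mul]
      ring
    -- values of R at the reductions
    have hred : ∀ (P : L) (c d a : F), P = e c * x + e d + e a * q x → (∀ a, β (x - e a) P = 0) →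
        β P (q x) = R c d := by
      intro P c d a hP hP0
      simp only [hR]
      by_cases ha : a = 0
      · rw [hP, ha, map_zero, zero_mul, add_zero]
      · have h1 := h.st3 (a := e c * x + e d) (b := e a * q x) (c := P) hP.symm
        rw [h.cmul_right ha, h.cmul_right ha, hlinQ P hP0, zero_add] at h1
        exact h1.symm
    have hzero : ∀ (P : L) (a : F), P ≠ 0 → P = e a * q x → (∀ a, β (x - e a) P = 0) →
        ∀ b, β (x - e b) (q x) = 0 := by
      intro P a hPn hP hP0 b
      have ha : a ≠ 0 := by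
        intro h0
        apply hPn
        rw [hP, h0, map_zero, zero_mul]
      rw [← h.cmul_right ha, ← hP, hP0]
    by_cases hlv : cv = 0 ∧ dv = 0
    · refine hzero (V x) v2 hv ?_ hVx
      rw [hVq, hlv.1, hlv.2, map_zero, zero_mul, zero_add, zero_add]
    by_cases hlb : ∃ b, cu - b * cv = 0 ∧ du - b * dv = 0
    · obtain ⟨b, hb1, hb2⟩ := hlb
      refine hzero (Qb b x) (u2 - b * v2) (hQb0 b) ?_ (fun a => hQx a b)
      rw [hQq, hb1, hb2, map_zero, zero_mul, zero_add, zero_add]
    have hlv' : cv ≠ 0 ∨ dv ≠ 0 := by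
      by_contra hcon
      rw [not_or, not_not, not_not] at hcon
      exact hlv hcon
    set N := dv * dv + cv * dv * τ + cv * cv * n with hN
    have hN0 : N ≠ 0 := by
      by_cases hc : cv = 0
      · have hd : dv ≠ 0 := hlv'.resolve_left (fun h => h hc)
        rw [hN, hc]
        simpa using hd
      · intro h0
        apply hirr (- dv / cv)
        field_simp
        linear_combination h0
    set t := (cu * dv - cv * du) / N with ht
    set r := (du * dv + cv * du * τ + cu * cv * n) / N with hr
    have hmul1 : ∀ b, t * cv * τ + t * dv + cv * (r - b) = cu - b * cv := by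
      intro b
      rw [ht, hr]
      field_simp
      rw [hN]
      ring
    have hmul2 : ∀ b, (r - b) * dv - t * cv * n = du - b * dv := by
      intro b
      rw [ht, hr]
      field_simp
      rw [hN]
      ring
    have ht0 : t ≠ 0 := by
      intro h0
      apply hlb
      refine ⟨r, ?_, ?_⟩
      · rw [← hmul1 r, h0]
        ring
      · rw [← hmul2 r, h0]
        ring
    have hrel : ∀ b, R t (r - b) = w ^ 3 • R 1 (-b) := by
      intro b
      have h1 := hRm t (r - b) cv dv (Or.inl ht0) hlv'
      rw [hmul1, hmul2] at h1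
      -- f(b)
      have h2 : R 1 (-b) = w ^ 2 • (R (cu - b * cv) (du - b * dv) - R cv dv) := by
        set x' := s (s (s (s x))) with hx'
        have hsx' : s x' = x := by
          rw [hx']
          exact hs5 x
        have hVs : ∀ z, s (V z) = V (s z) := by
          intro z
          simp only [hV, map_add, map_mul, map_pow, AlgEquiv.commutes, he]
        have hQs : ∀ b z, s (Qb b z) = Qb b (s z) := by
          intro b z
          simp only [hQb, map_add, map_mul, map_pow, AlgEquiv.commutes, he]
        have hrel' : Qb b x' = (x - e b) * V x' := by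
          apply s.injective
          rw [hQs, map_mul, hVs, hsx', map_sub, s.commutes]
          exact hQbe b
        have hV' : V x' ≠ 0 := by
          intro h0
          have := congrArg s h0
          rw [hVs, hsx', map_zero] at this
          exact hv this
        have hxb : x - e b ≠ 0 := fun h0 => hx b (sub_eq_zero.1 h0).symm
        have h3 : β (Qb b x') (q x) = β (x - e b) (q x) + β (V x') (q x) := by
          rw [hrel', h.ml _ _ _ hxb hV']
        rw [hls' (Qb b x'), hls' (V x'), hQs, hVs, hsx', hred _ _ _ _ (hQq b) (fun a => hQx a b),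
          hred _ _ _ _ hVq hVx] at h3
        have h4 : R 1 (-b) = β (x - e b) (q x) := by
          simp only [hR]
          rw [← hxa]
        rw [h4, smul_sub, h3]
        abel
      rw [h1] at h2
      rw [h2, smul_smul, ← pow_add, show w ^ (3 + 2) = 1 from hw5, one_smul, add_sub_cancel_right]
    have hm4 : (w ^ 3) ^ 4 ≠ 1 := by
      intro h0
      apply hw2
      rw [← h0]
      have : (w ^ 3) ^ 4 = (w ^ 5) ^ 2 * w ^ 2 := by ring
      rw [this, hw5, one_pow, one_mul]
    have hfin := hAL τ n R hirr hR0 hRh hRm r t (w ^ 3) ht0 (pow_ne_zero 3 hw0) hm4 hrel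
    intro b
    have := hfin 1 (-b)
    simp only [hR] at this
    rwa [← hxa] at this
  -- step 10
  have h10 : ∀ c0 c1 c2 : F, β x (e c0 + e c1 * x + e c2 * x ^ 2) = 0 := by
    intro c0 c1 c2
    by_cases hc : c2 = 0
    · have := h.lin x 1 0 c1 c0
      rw [hc, map_zero, zero_mul, add_zero, add_comm (e c0)]
      rwa [map_one, one_mul, map_zero, add_zero] at this
    · have hec : e c2 ≠ 0 := (map_ne_zero _).2 hc
      have h1 : e c0 + e c1 * x + e c2 * x ^ 2 = e c2 * (x ^ 2 - e (-c1 / c2) * x + e (c0 / c2)) := by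
        rw [map_div₀, map_div₀, map_neg]
        field_simp
        ring
      rw [h1, h.cmul_right hc]
      have := h9 (-c1 / c2) (c0 / c2) 0
      rwa [map_zero, sub_zero] at this
  obtain ⟨p0, p1, p2, r0, r1, r2, hr0, hpr⟩ := frac5 hdim hx y
  by_cases hy : y = 0
  · rw [hy, h.zr]
  have h1 := h.mr x y _ hy hr0
  rw [hpr, h10, h10, add_zero] at h1
  exact h1.symm

end Main

end BRP.H88
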