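import Pool.Agent.Lib.MP_defcf3_al.BRP.H88.Bridge

/-! General properties of symbols over L which are trivial on F. -/

namespace BRP.H88

variable {F L Q : Type*} [Field F] [Field L] [Algebra F L] [AddCommGroup Q] {β : L → L → Q}

namespace Sy

theorem one_left (h : Sy F β) (b : L) : β 1 b = 0 := by
  have := h.fl 1 b
  rwa [map_one] at this

theorem anti (h : Sy F β) (a b : L) : β a b = - β b a := by
  by_cases ha : a = 0
  · rw [ha, h.zl, h.zr, neg_zero]
  by_cases hb : b = 0
  · rw [hb, h.zl, h.zr, neg_zero]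
  have h1 := h.self (a * b)
  rw [h.ml _ _ _ ha hb, h.mr _ _ _ ha hb, h.mr _ _ _ ha hb, h.self, h.self, zero_add, add_zero] at h1
  exact eq_neg_of_add_eq_zero_left h1

theorem fr (h : Sy F β) (a : L) (f : F) : β a (algebraMap F L f) = 0 := by
  rw [h.anti, h.fl, neg_zero]

theorem one_right (h : Sy F β) (a : L) : β a 1 = 0 := by
  rw [h.anti, h.one_left, neg_zero]

theorem inv_left (h : Sy F β) (a b : L) : β a⁻¹ b = - β a b := by
  by_cases ha : a = 0
  · rw [ha, inv_zero, h.zl, neg_zero]
  have h1 := h.ml a a⁻¹ b ha (inv_ne_zero ha)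
  rw [mul_inv_cancel₀ ha, h.one_left] at h1
  exact eq_neg_of_add_eq_zero_right h1.symm

theorem inv_right (h : Sy F β) (a b : L) : β a b⁻¹ = - β a b := by
  rw [h.anti, h.inv_left, h.anti b a, neg_neg]

theorem div_left (h : Sy F β) {a a' : L} (b : L) (ha : a ≠ 0) (ha' : a' ≠ 0) :
    β (a / a') b = β a b - β a' b := by
  rw [div_eq_mul_inv, h.ml _ _ _ ha (inv_ne_zero ha'), h.inv_left, sub_eq_add_neg]

theorem div_right (h : Sy F β) (a : L) {b b' : L} (hb : b ≠ 0) (hb' : b' ≠ 0) :
    β a (b / b') = β a b - β a b' := by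
  rw [div_eq_mul_inv, h.mr _ _ _ hb (inv_ne_zero hb'), h.inv_right, sub_eq_add_neg]

/-- Constants may be dropped. -/
theorem cmul_left (h : Sy F β) {c : F} (hc : c ≠ 0) (a b : L) : β (algebraMap F L c * a) b = β a b := by
  have hc' : algebraMap F L c ≠ 0 := (map_ne_zero _).2 hc
  by_cases ha : a = 0
  · rw [ha, mul_zero]
  rw [h.ml _ _ _ hc' ha, h.fl, zero_add]

theorem cmul_right (h : Sy F β) {c : F} (hc : c ≠ 0) (a b : L) : β a (algebraMap F L c * b) = β a b := by
  rw [h.anti, h.cmul_left hc, h.anti b a, neg_neg]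

theorem neg_left (h : Sy F β) (a b : L) : β (-a) b = β a b := by
  have := h.cmul_left (c := -1) (neg_ne_zero.2 one_ne_zero) a b
  rwa [map_neg, map_one, neg_one_mul] at this

theorem neg_right (h : Sy F β) (a b : L) : β a (-b) = β a b := by
  rw [h.anti, h.neg_left, h.anti b a, neg_neg]

/-- The Steinberg relation in homogeneous form. -/
theorem st3 (h : Sy F β) {a b c : L} (habc : a + b = c) : β a b = β a c + β c b := by
  by_cases hc : c = 0
  · rw [hc, h.zl, h.zr, add_zero]
    have h1 : b = -a := by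
      rw [hc] at habc
      exact eq_neg_of_add_eq_zero_right habc
    rw [h1, h.neg_right, h.self]
  by_cases ha : a = 0
  · rw [ha, zero_add] at habc
    rw [ha, h.zl, h.zl, zero_add, habc, h.self]
  by_cases hb : b = 0
  · rw [hb, add_zero] at habc
    rw [hb, h.zr, h.zr, add_zero, habc, h.self]
  have h1 := h.st (a / c) (b / c) (by rw [← add_div, habc, div_self hc])
  rw [h.div_left _ ha hc, h.div_right _ hb hc, h.div_right _ hb hc, h.self, sub_zero, sub_sub] at h1
  exact sub_eq_zero.1 h1

/-- Two linear forms in x have trivial symbol. -/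
theorem lin (h : Sy F β) (x : L) (c d c' d' : F) :
    β (algebraMap F L c * x + algebraMap F L d) (algebraMap F L c' * x + algebraMap F L d') = 0 := by
  set e := algebraMap F L with he
  by_cases hc : c = 0
  · rw [hc, map_zero, zero_mul, zero_add]
    exact h.fl d _
  by_cases hc' : c' = 0
  · rw [hc', map_zero, zero_mul, zero_add]
    exact h.fr _ d'
  have hec : e c ≠ 0 := (map_ne_zero _).2 hc
  have hec' : e c' ≠ 0 := (map_ne_zero _).2 hc'
  -- reduce to x + d/c and x + d'/c'
  have h1 : e c * x + e d = e c * (x + e (d / c)) := by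
    rw [map_div₀]
    field_simp
  have h2 : e c' * x + e d' = e c' * (x + e (d' / c')) := by
    rw [map_div₀]
    field_simp
  rw [h1, h2, h.cmul_left hc, h.cmul_right hc']
  have h3 : (x + e (d / c)) + (-(x + e (d' / c'))) = e (d / c - d' / c') := by
    rw [map_sub]
    ring
  have h4 := h.st3 h3
  rw [h.neg_right, h.neg_right, h.fl, h.fr, add_zero] at h4
  exact h4

end Sy

end BRP.H88
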