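import Pool.Agent.Lib.MP_defcf3_al.BRP.H50.Small

/-!
The norm to F of the symbols over L = F(ζ), and the trinomial lemma: if z in L satisfies z^i + a z^j + c = 0 with
a, c in a subfield E which is of degree 2 over F, then all symbols of z with elements of E have norm zero.
-/

namespace BRP.H88

universe u

open BR7 BR7.H50 BRP.H50

/-- Properties of the norm of a symbol. -/
structure BX (ℓ : ℕ) (F : Type u) {Ω : Type u} [Field F] [Field Ω] [Algebra F Ω] (ζ : Ωˣ) (γ : Ω ≃ₐ[F] Ω)
    (k : ℕ) {Q : Type u} [AddCommGroup Q] (B : Ωˣ → Ωˣ → Q) : Prop where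
  add_left : ∀ a a' b, InL F ζ a → InL F ζ a' → InL F ζ b → B (a * a') b = B a b + B a' b
  add_right : ∀ a b b', InL F ζ a → InL F ζ b → InL F ζ b' → B a (b * b') = B a b + B a b'
  tors : ∀ a b, InL F ζ a → InL F ζ b → ℓ • B a b = 0
  self : ∀ b, InL F ζ b → B b b = 0
  stein : ∀ a b : Ωˣ, InL F ζ a → InL F ζ b → (a : Ω) + (b : Ω) = 1 → B a b = 0
  base : ∀ f l, InF F f → InL F ζ l → B f l = 0
  gal : ∀ a b, InL F ζ a → InL F ζ b → B (γ • a) (γ • b) = k • B a b

theorem eq_zero_of_coprime {ℓ n : ℕ} {Q : Type u} [AddCommGroup Q] (h : Nat.Coprime n ℓ) {x : Q}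
    (h1 : n • x = 0) (h2 : ℓ • x = 0) : x = 0 := by
  have h3 := addOrderOf_dvd_of_nsmul_eq_zero h1
  have h4 := addOrderOf_dvd_of_nsmul_eq_zero h2
  have h5 := Nat.eq_one_of_dvd_coprimes h h3 h4
  exact AddMonoid.addOrderOf_eq_one_iff.1 h5

theorem InL_of_InF {F Ω : Type u} [Field F] [Field Ω] [Algebra F Ω] {ζ f : Ωˣ} (h : InF F f) : InL F ζ f :=
  fun g _ => h g

theorem InF_neg_one {F Ω : Type u} [Field F] [Field Ω] [Algebra F Ω] : InF F (-1 : Ωˣ) := fun g =>
  Units.ext (by rw [smul_coe, Units.val_neg, Units.val_one, map_neg, map_one])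

section

variable {ℓ : ℕ} {F Ω : Type u} [Field F] [Field Ω] [Algebra F Ω] {ζ : Ωˣ} {γ : Ω ≃ₐ[F] Ω} {k d : ℕ}
  {Q : Type u} [AddCommGroup Q] {sym : Ωˣ → Ωˣ → Q} {Γ : AddMonoid.End Q} {B : Ωˣ → Ωˣ → Q}

/-- The norms of symbols have the properties above. -/
theorem bx_norm [Fact ℓ.Prime] [Fact (Odd ℓ)] (hS : SymAx ℓ F ζ γ k d sym Γ) :
    BX ℓ F ζ γ k (fun a b => ∑ i ∈ Finset.range d, (Γ ^ i : AddMonoid.End Q) (sym a b)) where
  add_left a a' b ha ha' hb := by
    simp only [hS.add_left a a' b ha ha' hb, map_add, Finset.sum_add_distrib]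
  add_right a b b' ha hb hb' := by
    simp only [hS.add_right a b b' ha hb hb', map_add, Finset.sum_add_distrib]
  tors a b ha hb := by
    rw [Finset.smul_sum]
    refine Finset.sum_eq_zero fun i _ => ?_
    rw [← map_nsmul, hS.tors a b ha hb, map_zero]
  self b hb := by
    simp only [hS.self b hb, map_zero, Finset.sum_const_zero]
  stein a b ha hb h := by
    simp only [hS.stein a b ha hb h, map_zero, Finset.sum_const_zero]
  base f l hf hl := hS.triv f l hf hl
  gal a b ha hb := by
    have hpow : ∀ i : ℕ, (k ^ i) • (Γ ^ i : AddMonoid.End Q) (sym a b) = sym (γ ^ i • a) (γ ^ i • b) ∧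
        InL F ζ (γ ^ i • a) ∧ InL F ζ (γ ^ i • b) := by
      intro i
      induction i with
      | zero => simpa using ⟨ha, hb⟩
      | succ i ih =>
        refine ⟨?_, ?_, ?_⟩
        · rw [pow_succ' γ, mul_smul, mul_smul, ← hS.gal _ _ ih.2.1 ih.2.2, ← ih.1, map_nsmul, smul_smul,
            pow_succ' Γ, pow_succ' k]
          rfl
        · rw [pow_succ' γ, mul_smul]
          exact InL_gamma hS ih.2.1
        · rw [pow_succ' γ, mul_smul]
          exact InL_gamma hS ih.2.2
    have hd : (Γ ^ d : AddMonoid.End Q) (sym a b) = sym a b := by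
      have h1 := (hpow d).1
      rw [gamma_d_fix hS ha, gamma_d_fix hS hb] at h1
      have h2 : k ^ d ≡ 1 [MOD ℓ] := by
        have h3 : ((k : ZMod ℓ)) ^ d = 1 := by
          rw [← hS.ord]
          exact pow_orderOf_eq_one _
        have h4 : ((k ^ d : ℕ) : ZMod ℓ) = ((1 : ℕ) : ZMod ℓ) := by
          push_cast
          rw [h3]
        exact (ZMod.natCast_eq_natCast_iff _ _ _).mp h4
      have h5 : ℓ • (Γ ^ d : AddMonoid.End Q) (sym a b) = 0 := by
        rw [← map_nsmul, hS.tors a b ha hb, map_zero]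
      rw [← Nat.div_add_mod (k ^ d) ℓ, add_nsmul, mul_comm, mul_nsmul', h5, smul_zero, zero_add,
        h2] at h1
      have h6 : 1 < ℓ := (Fact.out : ℓ.Prime).one_lt
      rw [Nat.mod_eq_of_lt h6, one_nsmul] at h1
      exact h1
    have h1 : ∀ i : ℕ, (Γ ^ i : AddMonoid.End Q) (sym (γ • a) (γ • b)) =
        k • (Γ ^ (i + 1) : AddMonoid.End Q) (sym a b) := by
      intro i
      rw [← hS.gal a b ha hb, map_nsmul, pow_succ Γ]
      rfl
    change ∑ i ∈ Finset.range d, (Γ ^ i : AddMonoid.End Q) (sym (γ • a) (γ • b)) =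
      k • ∑ i ∈ Finset.range d, (Γ ^ i : AddMonoid.End Q) (sym a b)
    rw [Finset.sum_congr rfl fun i _ => h1 i, ← Finset.smul_sum]
    have h2 := Finset.sum_range_succ (fun i => (Γ ^ i : AddMonoid.End Q) (sym a b)) d
    have h3 := Finset.sum_range_succ' (fun i => (Γ ^ i : AddMonoid.End Q) (sym a b)) d
    rw [h2, hd] at h3
    rw [pow_zero] at h3
    have h4 := add_right_cancel h3
    rw [h4]

namespace BX

theorem one_left (h : BX ℓ F ζ γ k B) {b : Ωˣ} (hb : InL F ζ b) : B 1 b = 0 := by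
  have := h.add_left 1 1 b InL_one InL_one hb
  rw [mul_one] at this
  simpa using this

theorem one_right (h : BX ℓ F ζ γ k B) {a : Ωˣ} (ha : InL F ζ a) : B a 1 = 0 := by
  have := h.add_right a 1 1 ha InL_one InL_one
  rw [mul_one] at this
  simpa using this

theorem anti (h : BX ℓ F ζ γ k B) {a b : Ωˣ} (ha : InL F ζ a) (hb : InL F ζ b) : B a b = - B b a := by
  have h1 := h.self (a * b) (InL_mul ha hb)
  rw [h.add_left _ _ _ ha hb (InL_mul ha hb), h.add_right _ _ _ ha ha hb, h.add_right _ _ _ hb ha hb,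
    h.self a ha, h.self b hb, zero_add, add_zero] at h1
  exact eq_neg_of_add_eq_zero_left h1

theorem pow_left (h : BX ℓ F ζ γ k B) {a b : Ωˣ} (ha : InL F ζ a) (hb : InL F ζ b) (n : ℕ) :
    B (a ^ n) b = n • B a b := by
  induction n with
  | zero => simp [h.one_left hb]
  | succ n ih => rw [pow_succ, h.add_left _ _ _ (InL_pow ha n) ha hb, ih, succ_nsmul]

theorem pow_right (h : BX ℓ F ζ γ k B) {a b : Ωˣ} (ha : InL F ζ a) (hb : InL F ζ b) (n : ℕ) :
    B a (b ^ n) = n • B a b := by
  induction n with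
  | zero => simp [h.one_right ha]
  | succ n ih => rw [pow_succ, h.add_right _ _ _ ha (InL_pow hb n) hb, ih, succ_nsmul]

theorem base_right (h : BX ℓ F ζ γ k B) {f l : Ωˣ} (hf : InF F f) (hl : InL F ζ l) : B l f = 0 := by
  rw [h.anti hl (InL_of_InF hf), h.base f l hf hl, neg_zero]

theorem inv_right (h : BX ℓ F ζ γ k B) {a b : Ωˣ} (ha : InL F ζ a) (hb : InL F ζ b) : B a b⁻¹ = - B a b := by
  have h1 := h.add_right a b b⁻¹ ha hb (InL_inv hb)
  rw [mul_inv_cancel, h.one_right ha] at h1
  exact (neg_eq_of_add_eq_zero_right h1.symm).symm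

theorem inv_left (h : BX ℓ F ζ γ k B) {a b : Ωˣ} (ha : InL F ζ a) (hb : InL F ζ b) : B a⁻¹ b = - B a b := by
  have h1 := h.add_left a a⁻¹ b ha (InL_inv ha) hb
  rw [mul_inv_cancel, h.one_left hb] at h1
  exact (neg_eq_of_add_eq_zero_right h1.symm).symm

/-- The symbol of z and z^n - a vanishes, for a in F and n prime to ℓ. -/
theorem power (h : BX ℓ F ζ γ k B) {z u : Ωˣ} (hz : InL F ζ z) {n : ℕ} (hn : Nat.Coprime n ℓ) {a : Ω}
    (ha : ∀ g : Ω ≃ₐ[F] Ω, g a = a) (hu : (u : Ω) = (z : Ω) ^ n - a) : B z u = 0 := by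
  have huL : InL F ζ u := by
    intro g hg
    refine Units.ext ?_
    have h1 : g (z : Ω) = z := congrArg Units.val (hz g hg)
    rw [smul_coe, hu, map_sub, map_pow, ha g, h1]
  by_cases ha0 : a = 0
  · have h1 : u = z ^ n := Units.ext (by rw [hu, ha0, sub_zero, Units.val_pow_eq_pow_val])
    rw [h1, h.pow_right hz hz, h.self z hz, smul_zero]
  · set α : Ωˣ := Units.mk0 a ha0 with hα
    have hαF : InF F α := fun g => Units.ext (ha g)
    have hαL : InL F ζ α := InL_of_InF hαF
    have hL1 : InL F ζ (-1 : Ωˣ) := InL_of_InF InF_neg_one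
    have hst := h.stein (z ^ n * α⁻¹) (-1 * (u * α⁻¹)) (InL_mul (InL_pow hz n) (InL_inv hαL))
      (InL_mul hL1 (InL_mul huL (InL_inv hαL))) (by
        push_cast
        rw [hu, hα, Units.val_mk0]
        field_simp
        ring)
    have hyL : InL F ζ (-1 * (u * α⁻¹)) := InL_mul hL1 (InL_mul huL (InL_inv hαL))
    rw [h.add_left _ _ _ (InL_pow hz n) (InL_inv hαL) hyL, h.pow_left hz hyL, h.inv_left hαL hyL,
      h.base α _ hαF hyL, neg_zero, add_zero, h.add_right _ _ _ hz hL1 (InL_mul huL (InL_inv hαL)),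
      h.base_right InF_neg_one hz, zero_add, h.add_right _ _ _ hz huL (InL_inv hαL),
      h.inv_right hz hαL, h.base_right hαF hz, neg_zero, add_zero] at hst
    exact eq_zero_of_coprime hn hst (h.tors z u hz huL)

/-- The trinomial lemma. -/
theorem trinomial (h : BX ℓ F ζ γ k B) (E : Subfield Ω)
    (hEL : ∀ e ∈ E, ∀ g : Ω ≃ₐ[F] Ω, g • ζ = ζ → g e = e)
    (hEE : ∀ a b : Ωˣ, (a : Ω) ∈ E → (b : Ω) ∈ E → B a b = 0)
    (hdec : ∀ e ∈ E, (∀ g : Ω ≃ₐ[F] Ω, g e = e) ∨ ∀ c ∈ E, ∃ c0 c1 : Ω, (∀ g : Ω ≃ₐ[F] Ω, g c0 = c0) ∧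
      (∀ g : Ω ≃ₐ[F] Ω, g c1 = c1) ∧ c = c0 + c1 * e)
    {z : Ωˣ} (hz : InL F ζ z) {i j m : ℕ} (hijm : i = j + m) (hi : Nat.Coprime i ℓ) (hj : Nat.Coprime j ℓ)
    (hm : Nat.Coprime m ℓ) {a c : Ω} (ha : a ∈ E) (hc : c ∈ E)
    (hc0 : c ≠ 0) (heq : (z : Ω) ^ i + a * (z : Ω) ^ j + c = 0) :
    ∀ e : Ωˣ, (e : Ω) ∈ E → B z e = 0 := by
  have hEL' : ∀ e : Ωˣ, (e : Ω) ∈ E → InL F ζ e := fun e he g hg => Units.ext (hEL _ he g hg)
  have hL1 : InL F ζ (-1 : Ωˣ) := InL_of_InF InF_neg_one
  by_cases ha0 : a = 0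
  · intro e he
    have h1 : z ^ i = -1 * Units.mk0 c hc0 := by
      refine Units.ext ?_
      push_cast
      rw [ha0, zero_mul, add_zero] at heq
      rw [Units.val_mk0]
      linear_combination heq
    have hcE : ((Units.mk0 c hc0 : Ωˣ) : Ω) ∈ E := hc
    have h2 := h.pow_left hz (hEL' e he) i
    rw [h1, h.add_left _ _ _ hL1 (hEL' _ hcE) (hEL' e he), h.base _ _ InF_neg_one (hEL' e he), zero_add,
      hEE _ _ hcE he] at h2
    exact eq_zero_of_coprime hi h2.symm (h.tors z e hz (hEL' e he))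
  · set α : Ωˣ := Units.mk0 a ha0 with hα
    have hαE : (α : Ω) ∈ E := ha
    have hαL := hEL' α hαE
    have key : ∀ ε : Ωˣ, (ε : Ω) ∈ E → B z α + m • B z ε = 0 := by
      intro ε hε
      have hεL := hEL' ε hε
      set e1 : Ωˣ := α * ε ^ m with he1
      have he1E : (e1 : Ω) ∈ E := by
        rw [he1]
        push_cast
        exact E.mul_mem hαE (E.pow_mem hε m)
      have he1L := hEL' e1 he1E
      set z' : Ωˣ := ε * z with hz'
      have hz'L : InL F ζ z' := InL_mul hεL hz
      have hmain : B z' e1 = 0 := by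
        rcases hdec _ he1E with h1 | h1
        · exact h.base_right (fun g => Units.ext (h1 g)) hz'L
        · obtain ⟨c0, c1, hc0F, hc1F, hcc⟩ := h1 (c * (ε : Ω) ^ i) (E.mul_mem hc (E.pow_mem hε i))
          have hrel : (z' : Ω) ^ i + c0 = - (e1 : Ω) * ((z' : Ω) ^ j + c1) := by
            have h2 : (z' : Ω) ^ i + (e1 : Ω) * (z' : Ω) ^ j + c * (ε : Ω) ^ i = 0 := by
              rw [he1, hz']
              push_cast
              rw [mul_pow, mul_pow, hα, Units.val_mk0]
              have h3 : (ε : Ω) ^ i = (ε : Ω) ^ j * (ε : Ω) ^ m := by rw [hijm, pow_add]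
              rw [h3]
              linear_combination ((ε : Ω) ^ j * (ε : Ω) ^ m) * heq
            rw [hcc] at h2
            linear_combination h2
          by_cases hu0 : (z' : Ω) ^ j + c1 = 0
          · have hc1' : c1 ≠ 0 := by
              intro h0
              rw [h0, add_zero] at hu0
              exact pow_ne_zero j z'.ne_zero hu0
            have h2 : z' ^ j = -1 * Units.mk0 c1 hc1' := by
              refine Units.ext ?_
              push_cast
              rw [Units.val_mk0]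
              linear_combination hu0
            have hcF : InF F (Units.mk0 c1 hc1') := fun g => Units.ext (hc1F g)
            have h3 := h.pow_left hz'L he1L j
            rw [h2, h.add_left _ _ _ hL1 (InL_of_InF hcF) he1L, h.base _ _ InF_neg_one he1L,
              h.base _ _ hcF he1L, add_zero] at h3
            exact eq_zero_of_coprime hj h3.symm (h.tors z' e1 hz'L he1L)
          · have hv0 : (z' : Ω) ^ i + c0 ≠ 0 := by
              rw [hrel]
              exact mul_ne_zero (neg_ne_zero.2 e1.ne_zero) hu0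
            have hu := h.power (u := Units.mk0 _ hu0) hz'L hj (a := -c1)
              (fun g => by rw [map_neg, hc1F g]) (by rw [Units.val_mk0, sub_neg_eq_add])
            have hv := h.power (u := Units.mk0 _ hv0) hz'L hi (a := -c0)
              (fun g => by rw [map_neg, hc0F g]) (by rw [Units.val_mk0, sub_neg_eq_add])
            have huL : InL F ζ (Units.mk0 _ hu0) := by
              intro g hg
              refine Units.ext ?_
              have h4 : g (z' : Ω) = z' := congrArg Units.val (hz'L g hg)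
              rw [smul_coe, Units.val_mk0, map_add, map_pow, hc1F g, h4]
            have h5 : Units.mk0 _ hv0 = -1 * (e1 * Units.mk0 _ hu0) := by
              refine Units.ext ?_
              push_cast
              rw [Units.val_mk0, Units.val_mk0, hrel]
              ring
            rw [h5, h.add_right _ _ _ hz'L hL1 (InL_mul he1L huL), h.base_right InF_neg_one hz'L, zero_add,
              h.add_right _ _ _ hz'L he1L huL, hu, add_zero] at hv
            exact hv
      rw [hz', h.add_left _ _ _ hεL hz he1L, hEE _ _ hε he1E, zero_add, he1,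
        h.add_right _ _ _ hz hαL (InL_pow hεL m), h.pow_right hz hεL] at hmain
      exact hmain
    have h1 : B z α = 0 := by
      have h2 := key 1 (by rw [Units.val_one]; exact E.one_mem)
      rw [h.one_right hz, smul_zero, add_zero] at h2
      exact h2
    intro e he
    have h2 := key e he
    rw [h1, zero_add] at h2
    exact eq_zero_of_coprime hm h2 (h.tors z e hz (hEL' e he))

end BX

end

end BRP.H88
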